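import Mathlib
import Pool.Agent.Q162.RealRoot
import Pool.Agent.Q162.RBell

set_option autoImplicit false

/-!
# The restricted Bell polynomial `B_{720, ≤ 5}` has a non-real root

The polynomial violates the Laguerre inequality `p'(x)^2 ≥ p(x) p''(x)` at `x = -1860`.
-/

namespace Pool.Agent.Results.MP_68af1b_co.NonRealRoot

open Finset Polynomial

/-- The restricted Stirling number of the second kind: the number of partitions of an `n`-set into
exactly `k` (nonempty) blocks, each of size at most `m`. -/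
noncomputable def rStirling (m n k : ℕ) : ℕ :=
  Nat.card {P : Finpartition (Finset.univ : Finset (Fin n)) //
    P.parts.card = k ∧ ∀ b ∈ P.parts, b.card ≤ m}

/-- The restricted Bell polynomial `B_{n, ≤ m}(x) = ∑_{k=0}^n {n brace k}_{≤ m} x^k`. -/
noncomputable def rBell (m n : ℕ) : ℤ[X] :=
  ∑ k ∈ Finset.range (n + 1), C (rStirling m n k : ℤ) * X ^ k

lemma parts_mem_fam {m n : ℕ} (P : Finpartition (Finset.univ : Finset (Fin n)))
    (hP : ∀ b ∈ P.parts, b.card ≤ m) : P.parts ∈ Q162.RBell.fam m (univ : Finset (Fin n)) := by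
  rw [Q162.RBell.mem_fam]
  refine ⟨P.bot_notMem, hP, ?_, ?_⟩
  · intro b hb c hc hbc
    exact P.disjoint hb hc hbc
  · rw [← Finset.sup_eq_biUnion]
    exact P.sup_parts

lemma exists_finpartition {m n : ℕ} (F : Finset (Finset (Fin n)))
    (hF : F ∈ Q162.RBell.fam m (univ : Finset (Fin n))) :
    ∃ P : Finpartition (Finset.univ : Finset (Fin n)), P.parts = F ∧
      ∀ b ∈ P.parts, b.card ≤ m := by
  rw [Q162.RBell.mem_fam] at hF
  obtain ⟨h1, h2, h3, h4⟩ := hF
  refine ⟨⟨F, ?_, ?_, h1⟩, rfl, h2⟩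
  · rw [Finset.supIndep_iff_pairwiseDisjoint]
    intro b hb c hc hbc
    exact h3 b hb c hc hbc
  · rw [Finset.sup_eq_biUnion]
    exact h4

lemma rStirling_eq (m n k : ℕ) : rStirling m n k =
    ((Q162.RBell.fam m (univ : Finset (Fin n))).filter (fun F => F.card = k)).card := by
  unfold rStirling
  rw [← Nat.card_eq_finsetCard]
  refine Nat.card_congr (Equiv.ofBijective (fun P => ⟨P.1.parts, ?_⟩) ⟨?_, ?_⟩)
  · rw [mem_filter]
    exact ⟨parts_mem_fam P.1 P.2.2, P.2.1⟩
  · rintro ⟨P, hP⟩ ⟨Q, hQ⟩ h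
    simp only [Subtype.mk.injEq] at h
    exact Subtype.ext (Finpartition.ext h)
  · rintro ⟨F, hF⟩
    rw [mem_filter] at hF
    obtain ⟨P, hP, hb⟩ := exists_finpartition F hF.1
    exact ⟨⟨P, by rw [hP]; exact hF.2, hb⟩, Subtype.ext hP⟩

lemma rBell_eq (m n : ℕ) : rBell m n = Q162.RBell.bp m n := by
  rw [← Q162.RBell.W_eq_bp m n (univ : Finset (Fin n)) (by simp)]
  unfold rBell Q162.RBell.W
  have hmaps : ∀ F ∈ Q162.RBell.fam m (univ : Finset (Fin n)), F.card ∈ range (n + 1) := by
    intro F hF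
    obtain ⟨P, hP, -⟩ := exists_finpartition F hF
    have h := P.card_parts_le_card
    rw [hP, card_univ, Fintype.card_fin] at h
    exact mem_range.mpr (by omega)
  rw [← Finset.sum_fiberwise_of_maps_to hmaps]
  refine Finset.sum_congr rfl fun k _ => ?_
  have h : ∀ F ∈ (Q162.RBell.fam m (univ : Finset (Fin n))).filter (fun F => F.card = k),
      (X : ℤ[X]) ^ F.card = X ^ k := by
    intro F hF
    rw [(mem_filter.mp hF).2]
  rw [Finset.sum_congr rfl h, Finset.sum_const, rStirling_eq]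
  simp

/-- **Disproof.** The restricted Bell polynomial `B_{720, ≤ 5}` has a non-real root. -/
theorem result : ∃ z : ℂ, z.im ≠ 0 ∧ aeval z (rBell 5 720) = 0 := by
  rw [rBell_eq]
  exact Q162.RealRoot.exists_nonreal_int (-1860) Q162.RBell.violation

end Pool.Agent.Results.MP_68af1b_co.NonRealRoot
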